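import Pool.Agent.W575.Hyp6.Torsion

/-!
# Torsion-free subgroups of PO(6,1;Z) of every index divisible by 414720
-/

namespace Pool.Agent.Results.MP_cb21b9_gt.AllNegativeEulerCharacteristics

open Pool.Agent.W575.Hyp6

/-- For every `k ≥ 1` the group of positive Lorentzian integral `7 × 7` matrices has a subgroup
of index `414720 k` which is torsion-free and acts freely on hyperbolic 6-space. -/
theorem result : ∀ k : ℕ, 1 ≤ k → ∃ Γ : Subgroup PosLor,
    Γ.index = 414720 * k ∧
    (∀ γ ∈ Γ, IsOfFinOrder γ → γ = 1) ∧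
    (∀ γ ∈ Γ, ∀ x : Fin 7 → ℝ, B x x = -1 → 0 < x 0 → actR γ x = x → γ = 1) :=
  fun k _ => ⟨GamK k, index_GamK k, fun γ hγ h => Gam_torsion_free γ (GamK_le k hγ) h,
    fun γ hγ x hx _ h => Gam_free γ (GamK_le k hγ) x hx h⟩

end Pool.Agent.Results.MP_cb21b9_gt.AllNegativeEulerCharacteristics
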