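import Pool.Agent.W575.Hyp6.Torsion

/-!
# A torsion-free subgroup of minimal index in PO(6,1;Z) with infinite abelianization
-/

namespace Pool.Agent.Results.MP_3fe7bf_gt.SmallestInfiniteAbelianization

open Pool.Agent.W575.Hyp6

/-- The group of positive Lorentzian integral `7 × 7` matrices has a subgroup `Γ` of index
`414720` which is torsion-free, acts freely on hyperbolic 6-space, and has infinite
abelianization. -/
theorem result : ∃ Γ : Subgroup PosLor,
    Γ.index = 414720 ∧
    (∀ γ ∈ Γ, IsOfFinOrder γ → γ = 1) ∧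
    (∀ γ ∈ Γ, ∀ x : Fin 7 → ℝ, B x x = -1 → 0 < x 0 → actR γ x = x → γ = 1) ∧
    Infinite (Abelianization Γ) :=
  ⟨Gam, index_Gam, Gam_torsion_free, fun γ hγ x hx _ h => Gam_free γ hγ x hx h, infinite_ab⟩

end Pool.Agent.Results.MP_3fe7bf_gt.SmallestInfiniteAbelianization
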